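import Mathlib

namespace Pool.Agent.Results.MP_270153_nt.Counter

open Finset

/-- The rising factorial `a (a+1) ... (a+k-1)`. -/
def rising (a : ℚ) (k : ℕ) : ℚ := ∏ i ∈ range k, (a + (i : ℚ))

/-- The sum `S_m(N)`. -/
def S (m N : ℕ) : ℚ :=
  ∑ k ∈ range (N + 1), (4 * (k : ℚ) - 1) ^ m * rising (-1 / 2) k ^ 4 / (k.factorial : ℚ) ^ 4

/-- `x ≡ y (mod p^n)`: `x - y = p^n u / v` with integers `u`, `v` and `p ∤ v`. -/
def Cong (p n : ℕ) (x y : ℚ) : Prop :=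
  ∃ u v : ℤ, ¬ (p : ℤ) ∣ v ∧ x - y = (p : ℚ) ^ n * ((u : ℚ) / (v : ℚ))

theorem not_cong {p : ℕ} (hp : p.Prime) (A B d : ℚ) (n : ℕ)
    (h1 : Cong p (n + 1) A (d * p)) (h2 : Cong p (n + 2) B (d * p ^ 2))
    (hd : p ∣ ((A / p - B / p ^ 2) / p ^ n).den) : False := by
  obtain ⟨u, v, hv, e⟩ := h1
  obtain ⟨u', v', hv', e'⟩ := h2
  have hp0 : (p : ℚ) ≠ 0 := by exact_mod_cast hp.ne_zero
  have hv0 : (v : ℚ) ≠ 0 := by
    have : v ≠ 0 := fun h => hv (h ▸ dvd_zero _)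
    exact_mod_cast this
  have hv0' : (v' : ℚ) ≠ 0 := by
    have : v' ≠ 0 := fun h => hv' (h ▸ dvd_zero _)
    exact_mod_cast this
  have hA : A = d * p + (p : ℚ) ^ (n + 1) * ((u : ℚ) / (v : ℚ)) := by linarith
  have hB : B = d * p ^ 2 + (p : ℚ) ^ (n + 2) * ((u' : ℚ) / (v' : ℚ)) := by linarith
  have key : (A / p - B / p ^ 2) / p ^ n = ((u * v' - u' * v : ℤ) : ℚ) / ((v * v' : ℤ) : ℚ) := by
    rw [hA, hB]
    push_cast
    field_simp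
    ring
  rw [key] at hd
  have h3 : (((((u * v' - u' * v : ℤ) : ℚ) / ((v * v' : ℤ) : ℚ)).den : ℕ) : ℤ) ∣ v * v' := by
    have := Rat.den_dvd (u * v' - u' * v) (v * v')
    rwa [Rat.divInt_eq_div] at this
  have h4 : (p : ℤ) ∣ v * v' := (Int.natCast_dvd_natCast.2 hd).trans h3
  rcases (Nat.prime_iff_prime_int.1 hp).dvd_or_dvd h4 with h | h
  · exact hv h
  · exact hv' h

theorem result : ∀ mp ∈ [(11, 3), (15, 5), (19, 7)], Odd mp.1 ∧ Nat.Prime mp.2 ∧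
    ∀ d : ℤ, ¬ (∀ r : ℕ, 1 ≤ r →
      Cong mp.2 (r + 3) (S mp.1 ((mp.2 ^ r + 1) / 2)) (d * (mp.2 : ℚ) ^ r)) ∧
      ¬ (∀ r : ℕ, 1 ≤ r → Cong mp.2 (r + 3) (S mp.1 (mp.2 ^ r - 1)) (d * (mp.2 : ℚ) ^ r)) := by
  intro mp hmp
  simp only [List.mem_cons, List.not_mem_nil, or_false] at hmp
  rcases hmp with rfl | rfl | rfl
  all_goals
    refine ⟨by decide, by norm_num, fun d => ⟨fun h => ?_, fun h => ?_⟩⟩
    · exact not_cong (by norm_num) _ _ d 3 (by simpa using h 1 le_rfl) (h 2 (by norm_num))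
        (by decide +kernel)
    · exact not_cong (by norm_num) _ _ d 3 (by simpa using h 1 le_rfl) (h 2 (by norm_num))
        (by decide +kernel)

end Pool.Agent.Results.MP_270153_nt.Counter
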